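import Mathlib
import Pool.Agent.W442.SV.Defs

/-!
# Hilbert function of the localization of a quotient of a polynomial ring at the origin
-/

open MvPolynomial

namespace Pool.Agent.W308.SV

open Pool.Agent.W442.SV

theorem origin_eq (σ : Type) : originIdeal σ = idealOfVars σ ℂ := by
  ext f
  have h := mem_pow_idealOfVars_iff' (σ := σ) (R := ℂ) 1 f
  rw [pow_one] at h
  rw [h]
  unfold originIdeal
  rw [RingHom.mem_ker]
  have e : eval (0 : σ → ℂ) f = coeff 0 f := by
    rw [← constantCoeff_eq]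
    simp [constantCoeff, eval]
  rw [e]
  constructor
  · intro h0 x hx
    have : x = 0 := by
      have hx' : x.degree = 0 := by omega
      exact (Finsupp.degree_eq_zero_iff x).1 hx'
    rw [this]; exact h0
  · intro h0
    exact h0 0 (by simp)

theorem mem_origin_pow {σ : Type} (n : ℕ) (f : MvPolynomial σ ℂ) :
    f ∈ originIdeal σ ^ n ↔ ∀ x : σ →₀ ℕ, x.degree < n → coeff x f = 0 := by
  rw [origin_eq]
  exact mem_pow_idealOfVars_iff' n f

theorem mem_origin {σ : Type} (f : MvPolynomial σ ℂ) :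
    f ∈ originIdeal σ ↔ coeff 0 f = 0 := by
  have h := mem_origin_pow 1 f
  rw [pow_one] at h
  rw [h]
  constructor
  · intro h0
    exact h0 0 (by simp)
  · intro h0 x hx
    have : x = 0 := by
      have hx' : x.degree = 0 := by omega
      exact (Finsupp.degree_eq_zero_iff x).1 hx'
    rw [this]; exact h0

theorem homog_mem {σ : Type} {i : ℕ} {f : MvPolynomial σ ℂ} (hf : f.IsHomogeneous i) :
    f ∈ originIdeal σ ^ i := by
  rw [mem_origin_pow]
  intro x hx
  exact hf.coeff_eq_zero (by omega)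

theorem sub_homog_mem {σ : Type} {i : ℕ} {x : MvPolynomial σ ℂ} (hx : x ∈ originIdeal σ ^ i) :
    x - homogeneousComponent i x ∈ originIdeal σ ^ (i + 1) := by
  rw [mem_origin_pow] at hx ⊢
  intro t ht
  rw [coeff_sub, coeff_homogeneousComponent]
  split_ifs with h
  · simp
  · rw [hx t (by omega)]; simp

section main

variable {σ : Type} (I : Ideal (MvPolynomial σ ℂ))

/-- The localization. -/
abbrev LR : Type := Localization ((originIdeal σ).primeCompl.map (Ideal.Quotient.mk I))

/-- The canonical map. -/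
noncomputable abbrev phi : MvPolynomial σ ℂ →+* LR I :=
  (algebraMap (MvPolynomial σ ℂ ⧸ I) (LR I)).comp (Ideal.Quotient.mk I)

theorem phi_of_mem {f : MvPolynomial σ ℂ} (hf : f ∈ I) : phi I f = 0 := by
  unfold phi
  rw [RingHom.comp_apply, Ideal.Quotient.eq_zero_iff_mem.2 hf, map_zero]

theorem phi_unit {s : MvPolynomial σ ℂ} (hs : s ∉ originIdeal σ) : IsUnit (phi I s) := by
  unfold phi
  rw [RingHom.comp_apply]
  exact IsLocalization.map_units (LR I)
    (⟨Ideal.Quotient.mk I s, ⟨s, hs, rfl⟩⟩ : (originIdeal σ).primeCompl.map (Ideal.Quotient.mk I))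

theorem mem_pow_exists (k : ℕ) (y : LR I) (hy : y ∈ (originIdeal σ).map (phi I) ^ k) :
    ∃ x ∈ originIdeal σ ^ k, ∃ s, s ∉ originIdeal σ ∧ y * phi I s = phi I x := by
  rw [← Ideal.map_pow, ← Ideal.map_map] at hy
  rw [IsLocalization.mem_map_algebraMap_iff
    ((originIdeal σ).primeCompl.map (Ideal.Quotient.mk I))] at hy
  obtain ⟨⟨⟨x, hx⟩, ⟨w, hw⟩⟩, h⟩ := hy
  obtain ⟨s, hs, rfl⟩ := hw
  rw [Ideal.mem_map_iff_of_surjective _ Ideal.Quotient.mk_surjective] at hx
  obtain ⟨x', hx', rfl⟩ := hx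
  exact ⟨x', hx', s, hs, h⟩

theorem phi_mem_exists (k : ℕ) (f : MvPolynomial σ ℂ)
    (hf : phi I f ∈ (originIdeal σ).map (phi I) ^ k) :
    ∃ x ∈ originIdeal σ ^ k, ∃ s, s ∉ originIdeal σ ∧ s * f - x ∈ I := by
  obtain ⟨x, hx, s, hs, h⟩ := mem_pow_exists I k _ hf
  rw [← map_mul] at h
  unfold phi at h
  rw [RingHom.comp_apply, RingHom.comp_apply,
    IsLocalization.eq_iff_exists ((originIdeal σ).primeCompl.map (Ideal.Quotient.mk I))] at h
  obtain ⟨⟨c, ⟨c', hc', rfl⟩⟩, h⟩ := h
  refine ⟨c' * x, Ideal.mul_mem_left _ _ hx, c' * s, ?_, ?_⟩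
  · exact (inferInstance : (originIdeal σ).IsPrime).mul_notMem hc' hs
  · rw [← Ideal.Quotient.eq]
    have h' : Ideal.Quotient.mk I (c' * (f * s)) = Ideal.Quotient.mk I (c' * x) := by
      rw [map_mul, map_mul]; exact h
    rw [← h']
    congr 1
    ring

theorem phi_mem_pow (k : ℕ) {f : MvPolynomial σ ℂ} (hf : f ∈ originIdeal σ ^ k) :
    phi I f ∈ (originIdeal σ).map (phi I) ^ k := by
  rw [← Ideal.map_pow]
  exact Ideal.mem_map_of_mem _ hf

theorem surj_aux (i : ℕ) (y : LR I) (hy : y ∈ (originIdeal σ).map (phi I) ^ i) :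
    ∃ f : MvPolynomial σ ℂ, f.IsHomogeneous i ∧
      y - phi I f ∈ (originIdeal σ).map (phi I) ^ (i + 1) := by
  obtain ⟨x, hx, s, hs, h⟩ := mem_pow_exists I i y hy
  have hs0 : coeff 0 s ≠ 0 := fun h0 => hs ((mem_origin s).2 h0)
  refine ⟨C (coeff 0 s)⁻¹ * homogeneousComponent i x, ?_, ?_⟩
  · have := (homogeneousComponent_isHomogeneous i x)
    have h2 := (isHomogeneous_C σ (coeff 0 s)⁻¹).mul this
    simpa using h2
  · obtain ⟨u, hu⟩ := phi_unit I hs
    have key : phi I s * (y - phi I (C (coeff 0 s)⁻¹ * homogeneousComponent i x)) ∈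
        (originIdeal σ).map (phi I) ^ (i + 1) := by
      have e : phi I s * (y - phi I (C (coeff 0 s)⁻¹ * homogeneousComponent i x)) =
          phi I (x - s * (C (coeff 0 s)⁻¹ * homogeneousComponent i x)) := by
        rw [mul_sub, map_sub, ← h, map_mul (phi I) s]
        ring
      rw [e]
      apply phi_mem_pow
      have e2 : x - s * (C (coeff 0 s)⁻¹ * homogeneousComponent i x) =
          (x - homogeneousComponent i x) +
            (1 - s * C (coeff 0 s)⁻¹) * homogeneousComponent i x := by ring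
      rw [e2]
      apply Ideal.add_mem _ (sub_homog_mem hx)
      rw [pow_succ']
      apply Ideal.mul_mem_mul
      · rw [mem_origin, coeff_sub, mul_comm s, coeff_C_mul]
        simp [hs0]
      · exact homog_mem (homogeneousComponent_isHomogeneous i x)
    have e3 : y - phi I (C (coeff 0 s)⁻¹ * homogeneousComponent i x) =
        (↑u⁻¹ : LR I) * (phi I s * (y - phi I (C (coeff 0 s)⁻¹ * homogeneousComponent i x))) := by
      rw [← hu, ← mul_assoc, Units.inv_mul, one_mul]
    rw [e3]
    exact Ideal.mul_mem_left _ _ key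

theorem ker_aux (i : ℕ) (N : Finset (σ →₀ ℕ)) (_hN : ∀ s ∈ N, s.degree = i)
    (h1 : ∀ s : σ →₀ ℕ, s.degree = i → s ∉ N →
      ∃ g ∈ originIdeal σ ^ (i + 1), monomial s (1 : ℂ) + g ∈ I)
    (h2 : ∀ f : MvPolynomial σ ℂ, f.IsHomogeneous i → ∀ g ∈ originIdeal σ ^ (i + 1), f + g ∈ I →
      ∀ s ∈ N, coeff s f = 0)
    (f : MvPolynomial σ ℂ) (hf : f.IsHomogeneous i) :
    phi I f ∈ (originIdeal σ).map (phi I) ^ (i + 1) ↔ ∀ s ∈ N, coeff s f = 0 := by
  constructor
  · intro h
    obtain ⟨x, hx, s, hs, h⟩ := phi_mem_exists I (i + 1) f h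
    have hs0 : coeff 0 s ≠ 0 := fun h0 => hs ((mem_origin s).2 h0)
    have e : s * f - x = C (coeff 0 s) * f + ((s - C (coeff 0 s)) * f - x) := by ring
    rw [e] at h
    have hhom : (C (coeff 0 s) * f).IsHomogeneous i := by
      simpa using (isHomogeneous_C σ (coeff 0 s)).mul hf
    have := h2 _ hhom _ ?_ h
    · intro t ht
      have h3 := this t ht
      rw [coeff_C_mul] at h3
      exact (mul_eq_zero.1 h3).resolve_left hs0
    · apply Ideal.sub_mem _ _ hx
      rw [pow_succ']
      apply Ideal.mul_mem_mul _ (homog_mem hf)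
      rw [mem_origin, coeff_sub]
      simp
  · intro h
    rw [f.as_sum, map_sum]
    apply Ideal.sum_mem
    intro t ht
    rw [mem_support_iff] at ht
    have hdeg : t.degree = i := by
      by_contra hne
      exact ht (hf.coeff_eq_zero hne)
    have htN : t ∉ N := fun htN => ht (h t htN)
    obtain ⟨g, hg, hgI⟩ := h1 t hdeg htN
    have e : monomial t (coeff t f) = C (coeff t f) * monomial t 1 := by
      rw [C_mul_monomial, mul_one]
    rw [e, map_mul]
    apply Ideal.mul_mem_left
    have e2 : phi I (monomial t 1) = phi I (monomial t 1 + g) - phi I g := by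
      rw [map_add]; ring
    rw [e2, phi_of_mem I hgI, zero_sub]
    exact Ideal.neg_mem_iff _ |>.2 (phi_mem_pow I _ hg)

end main

theorem main : S_loc := by
  intro σ _ _ I hI i N hN h1 h2 m hm
  subst hm
  change Module.finrank ℂ (↥((originIdeal σ).map (phi I) ^ i) ⧸
    Submodule.comap (Submodule.subtype ((originIdeal σ).map (phi I) ^ i))
      ((originIdeal σ).map (phi I) ^ (i + 1))) = N.card
  set m := (originIdeal σ).map (phi I) with hm
  let L : MvPolynomial σ ℂ →ₗ[ℂ] LR I :=
    ((IsScalarTower.toAlgHom ℂ (MvPolynomial σ ℂ ⧸ I) (LR I)).comp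
      (Ideal.Quotient.mkₐ ℂ I)).toLinearMap
  have hL : ∀ f, L f = phi I f := fun f => rfl
  let L1 : homogeneousSubmodule σ ℂ i →ₗ[ℂ] ↥(m ^ i) :=
    { toFun := fun f => ⟨L f.1, by rw [hL]; exact phi_mem_pow I i (homog_mem f.2)⟩
      map_add' := by intro a b; apply Subtype.ext; simp
      map_smul' := by intro a b; apply Subtype.ext; simp }
  let psi : homogeneousSubmodule σ ℂ i →ₗ[ℂ] (↥(m ^ i) ⧸
      Submodule.comap (Submodule.subtype (m ^ i)) (m ^ (i + 1))) :=
    ((Submodule.comap (Submodule.subtype (m ^ i)) (m ^ (i + 1))).mkQ.restrictScalars ℂ).comp L1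
  have hpsi : ∀ f, psi f = 0 ↔ phi I f.1 ∈ m ^ (i + 1) := by
    intro f
    change Submodule.Quotient.mk (L1 f) = 0 ↔ _
    rw [Submodule.Quotient.mk_eq_zero]
    rfl
  have hsurj : Function.Surjective psi := by
    intro z
    obtain ⟨⟨y, hy⟩, rfl⟩ := Submodule.Quotient.mk_surjective _ z
    obtain ⟨f, hf, h⟩ := surj_aux I i y hy
    refine ⟨⟨f, hf⟩, ?_⟩
    change Submodule.Quotient.mk (L1 ⟨f, hf⟩) = _
    symm
    rw [Submodule.Quotient.eq]
    exact h
  let P : homogeneousSubmodule σ ℂ i →ₗ[ℂ] (N → ℂ) :=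
    LinearMap.pi fun s => (MvPolynomial.lcoeff ℂ s.1).comp (Submodule.subtype _)
  have hP : ∀ f s, P f s = coeff s.1 f.1 := fun f s => rfl
  have hPs : Function.Surjective P := by
    intro c
    refine ⟨⟨∑ s : N, monomial s.1 (c s), ?_⟩, ?_⟩
    · apply IsHomogeneous.sum
      intro s _
      exact isHomogeneous_monomial _ (hN s.1 s.2)
    · funext t
      rw [hP]
      simp only [coeff_sum, coeff_monomial]
      rw [Finset.sum_eq_single t]
      · simp
      · intro b _ hb
        rw [if_neg]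
        exact fun h => hb (Subtype.ext h)
      · simp
  have hker : LinearMap.ker psi = LinearMap.ker P := by
    ext f
    rw [LinearMap.mem_ker, LinearMap.mem_ker, hpsi, ker_aux I i N hN h1 h2 f.1 f.2]
    constructor
    · intro h
      funext s
      exact h s.1 s.2
    · intro h s hs
      exact congrFun h ⟨s, hs⟩
  have e1 := (psi.quotKerEquivOfSurjective hsurj).finrank_eq
  have e2 := (P.quotKerEquivOfSurjective hPs).finrank_eq
  rw [← e1, hker, e2]
  simp

end Pool.Agent.W308.SV
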